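import Pool.Agent.Q205.HT.Memb
import Pool.Agent.TH747.HP.Two

/-! Sums of two elements decide `Π⁰₃` facts in the limit, if the elements contain the smallest
later value of the approximations between their lowest and their highest position. -/

namespace Pool.Agent.Q205.HT

open Encodable Filter Pool.Agent.H645R2.HT Pool.Agent.Helper446 Pool.Agent.Helper446.RE
  Pool.Agent.Helper446.Oracle
open Pool.Agent.TH747.HT hiding dl el c_dl c_el
open Pool.Agent.TH747.HS

variable {V : Ultrafilter ℕ}

/-- The number of `j`-th members of clusters of the word of `n`. -/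
def nm (y : ℕ → ℕ) (j n : ℕ) : ℕ := cm j [] (wd y n)

/-- The lower limit `b` is finite and occurs in the words of typical elements: the number of
`j`-th members of a sum of two typical elements is odd. -/
theorem nm_fin (hV : FarU V) {y : ℕ → ℕ} {b : ℕ} (h1 : ∀ N, ∃ t, N < t ∧ y t = b)
    (h2 : ∃ N, ∀ t, N < t → b ≤ y t) (hb : ∀ᶠ n in (V : Filter ℕ), b ∈ wd y n) {j : ℕ}
    (hj : j ≤ 1) : Sm V 2 (fun n => nm y j n % 2 = 1) := by
  obtain ⟨N, hN⟩ := h2
  have hge : ∀ n, N < la n → ∀ v ∈ wd y n, b ≤ v := by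
    intro n hn v hv
    obtain ⟨t, ht, rfl⟩ := mem_wd hv
    exact hN t (by omega)
  obtain ⟨r, -, hr⟩ := exists_const (U := V) (fun n => cm j (List.replicate 2 b) (wd y n) % 2) 2
    (Eventually.of_forall fun n => Nat.mod_lt _ (by omega))
  change ∀ᶠ m in (V : Filter ℕ), ∀ᶠ n in (V : Filter ℕ), nm y j (m + (n + 0)) % 2 = 1
  filter_upwards [hr, hV N, hb] with m hm hm' hbm
  obtain ⟨t, ht, hyt⟩ := h1 (mu m)
  filter_upwards [hr, hV (max (max t (mu m)) N)] with n hn hn'
  have hsep : Sep m n := by unfold Pool.Agent.H645R2.HT.Sep; omega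
  have hmn : mn y (mu m) (la n) = b := by
    refine le_antisymm ?_ ?_
    · rw [← hyt]; exact mn_le ht (by omega)
    · obtain ⟨t', h3, _, h4⟩ := mn_mem (y := y) hsep
      rw [h4]
      exact hN t' (by have := la_le_mu hm'.1; omega)
  rw [Nat.add_zero]
  unfold nm
  rw [wd_add hm'.1 hn'.1 hsep, hmn, cm_join hj (hge m hm'.2) (hge n (by omega)) hbm]
  omega

/-- The sequence tends to infinity: the numbers of first and of second members of a sum of two
typical elements are not both odd. -/
theorem nm_inf (hV : FarU V) {y : ℕ → ℕ} (h : ∀ B, ∃ N, ∀ t, N < t → B ≤ y t) :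
    Sm V 2 (fun n => ¬ (nm y 0 n % 2 = 1 ∧ nm y 1 n % 2 = 1)) := by
  choose g N hg using exists_gap h
  obtain ⟨r0, -, hr0⟩ := exists_const (U := V) (fun n => nm y 0 n % 2) 2
    (Eventually.of_forall fun n => Nat.mod_lt _ (by omega))
  obtain ⟨r1, -, hr1⟩ := exists_const (U := V) (fun n => nm y 1 n % 2) 2
    (Eventually.of_forall fun n => Nat.mod_lt _ (by omega))
  change ∀ᶠ m in (V : Filter ℕ), ∀ᶠ n in (V : Filter ℕ),
    ¬ (nm y 0 (m + (n + 0)) % 2 = 1 ∧ nm y 1 (m + (n + 0)) % 2 = 1)
  filter_upwards [hr0, hr1, hV 0] with m hm0 hm1 hm'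
  filter_upwards [hr0, hr1, hV (max (N (mu m)) (mu m))] with n hn0 hn1 hn'
  have hsep : Sep m n := by unfold Pool.Agent.H645R2.HT.Sep; omega
  obtain ⟨h1, h2⟩ := hg (mu m) (la n) (by omega)
  have e : ∀ j, nm y j (m + n) =
      nm y j m + (if (vs [] (wd y m)).count (g (mu m)) = j then 1 else 0) + nm y j n := by
    intro j
    unfold nm
    rw [wd_add hm'.1 hn'.1 hsep, h1]
    refine cm_far j fun v hv => ?_
    obtain ⟨t, ht, rfl⟩ := mem_wd hv
    exact h2 t ht
  rw [Nat.add_zero, e 0, e 1]
  generalize (vs [] (wd y m)).count (g (mu m)) = k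
  rintro ⟨h3, h4⟩
  by_cases k0 : k = 0
  · rw [if_neg (by omega)] at h4
    omega
  · rw [if_neg k0] at h3
    omega

/-- The decision of `Π⁰₃` facts. -/
def E3 (W : ℕ → ℕ → Bool) (z l : ℕ) : Bool :=
  !(decide (nm (yy W z) 0 l % 2 = 1) && decide (nm (yy W z) 1 l % 2 = 1))

theorem E3_iff {W : ℕ → ℕ → Bool} {z l : ℕ} :
    E3 W z l = true ↔ ¬ (nm (yy W z) 0 l % 2 = 1 ∧ nm (yy W z) 1 l % 2 = 1) := by
  unfold E3
  simp
  omega

/-- Typical elements contain small values as soon as there are any. -/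
def Near (W : ℕ → ℕ → Bool) (V : Ultrafilter ℕ) : Prop :=
  ∀ z b, ∀ᶠ n in (V : Filter ℕ), (∃ t, la n < t ∧ yy W z t ≤ b) →
    ∃ t, la n < t ∧ t ≤ mu n ∧ yy W z t ≤ b

theorem mem_gl_of {y : ℕ → ℕ} {b : ℕ} {l : List ℕ} (hl : l.Pairwise (· < ·)) {t : ℕ}
    (h1 : l.headD 0 < t) (h2 : t ≤ l.getLastD 0) (ht : y t = b)
    (hge : ∀ t, l.headD 0 < t → b ≤ y t) : b ∈ gl (mn y) l := by
  induction l with
  | nil => simp at h1 h2; omega
  | cons a l ih =>
    cases l with
    | nil => simp at h1 h2; omega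
    | cons c l =>
      rw [List.pairwise_cons] at hl
      have hac := hl.1 c (by simp)
      simp only [List.headD_cons] at h1 hge
      simp only [gl, List.mem_cons]
      rcases Nat.lt_or_ge c t with h3 | h3
      · right
        refine ih hl.2 (by simpa using h3) ?_ fun t' ht' => hge t' ?_
        · have e : (a :: c :: l).getLastD 0 = (c :: l).getLastD 0 := by
            simp [List.getLastD_eq_getLast?, List.getLast?_cons_cons]
          rw [e] at h2
          exact h2
        · simp only [List.headD_cons] at ht'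
          omega
      · left
        refine le_antisymm ?_ ?_
        · obtain ⟨t', h4, _, h5⟩ := mn_mem (y := y) hac
          rw [h5]
          exact hge t' h4
        · rw [← ht]
          exact mn_le h1 h3

theorem mem_wd_of {y : ℕ → ℕ} {b n t : ℕ} (h1 : la n < t) (h2 : t ≤ mu n) (ht : y t = b)
    (hge : ∀ t, la n < t → b ≤ y t) : b ∈ wd y n :=
  mem_gl_of (L_sorted n).pairwise h1 h2 ht hge

theorem lim3 {W : ℕ → ℕ → Bool} (hW : Mon W) (hV : FarU V) (hN : Near W V) (z : ℕ) :
    Sm V 2 (fun l => (E3 W z l = true ↔ Psi W z)) := by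
  by_cases h : ∀ B, ∃ N, ∀ t, N < t → B ≤ yy W z t
  · have h1 := (Psi_iff hW z).2 h
    refine Sm_mono ?_ (nm_inf hV h)
    intro l hl
    exact iff_of_true (E3_iff.2 hl) h1
  · have h1 : ¬ Psi W z := fun h' => h ((Psi_iff hW z).1 h')
    classical
    push Not at h
    have h' : ∃ b, ∀ N, ∃ t, N < t ∧ yy W z t ≤ b := by
      obtain ⟨B, hB⟩ := h
      exact ⟨B, fun N => by obtain ⟨t, h1, h2⟩ := hB N; exact ⟨t, h1, h2.le⟩⟩
    have h3 := Nat.find_spec h'
    have h4 : ∀ b' < Nat.find h', ∃ N, ∀ t, N < t → b' < yy W z t := by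
      intro b' hb'
      have := Nat.find_min h' hb'
      push Not at this
      exact this
    generalize Nat.find h' = b at h3 h4
    have h5 : ∃ N, ∀ t, N < t → b ≤ yy W z t := by
      cases b with
      | zero => exact ⟨0, fun t _ => Nat.zero_le _⟩
      | succ b =>
        obtain ⟨N, hN⟩ := h4 b (Nat.lt_succ_self b)
        exact ⟨N, fun t ht => hN t ht⟩
    obtain ⟨N', hN'⟩ := h5
    have h6 : ∀ N, ∃ t, N < t ∧ yy W z t = b := by
      intro N
      obtain ⟨t, ht, hle⟩ := h3 (max N N')
      exact ⟨t, by omega, le_antisymm hle (hN' t (by omega))⟩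
    have h7 : ∀ᶠ n in (V : Filter ℕ), b ∈ wd (yy W z) n := by
      filter_upwards [hN z b, hV N'] with n hn hn'
      obtain ⟨t, ht, hyt⟩ := h6 (la n)
      obtain ⟨t', k1, k2, k3⟩ := hn ⟨t, ht, hyt.le⟩
      have hge : ∀ t, la n < t → b ≤ yy W z t := fun t ht => hN' t (by omega)
      exact mem_wd_of k1 k2 (le_antisymm k3 (hge t' k1)) hge
    refine Sm_mono ?_ (Sm_and (nm_fin hV h6 ⟨N', hN'⟩ h7 (j := 0) (by omega))
      (nm_fin hV h6 ⟨N', hN'⟩ h7 (j := 1) le_rfl))
    intro l hl
    exact iff_of_false (fun hE => E3_iff.1 hE hl) h1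

section comp

variable {α : Type*} [Primcodable α]

theorem c_filter' {f : α → List ℕ} {g : α → ℕ} (hf : Computable f) (hg : Computable g) :
    Computable fun a => (f a).filter (fun z => decide (z ≤ g a)) := by
  have h := c_filter (f := f) (g := fun a => g a + 1) hf (by fun_prop)
  refine h.of_eq fun a => ?_
  congr 1
  funext z
  rw [decide_eq_decide]
  omega

theorem c_count {f : α → List ℕ} {g : α → ℕ} (hf : Computable f) (hg : Computable g) :
    Computable fun a => (f a).count (g a) := by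
  have h : Computable fun a => (f a).foldl (fun (s : ℕ) x =>
      bif decide (x = g a) then s + 1 else s) 0 := by
    refine RE.list_foldl (h := fun (a : α) (p : ℕ × ℕ) =>
      bif decide (p.2 = g a) then p.1 + 1 else p.1) hf (Computable.const _) ?_
    unfold Computable₂
    exact ccond (c_deq (by fun_prop) (by fun_prop)) (by fun_prop) (by fun_prop)
  refine h.of_eq fun a => ?_
  generalize f a = l
  have key : ∀ (l : List ℕ) (s : ℕ), l.foldl (fun (s : ℕ) x =>
      bif decide (x = g a) then s + 1 else s) s = s + l.count (g a) := by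
    intro l
    induction l with
    | nil => intro s; simp
    | cons x l ih =>
      intro s
      rw [List.foldl_cons, ih]
      by_cases hx : x = g a
      · simp [hx]; omega
      · simp [hx]
  simpa using key l 0

theorem cm_foldl (j : ℕ) (w : List ℕ) : ∀ (n : ℕ) (B : List ℕ),
    (w.foldl (fun (s : ℕ × List ℕ) x => ((bif decide (s.2.count x = j) then s.1 + 1 else s.1),
      x :: s.2.filter (fun z => decide (z ≤ x)))) (n, B)).1 = n + cm j B w := by
  induction w with
  | nil => intro n B; simp [cm]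
  | cons x w ih =>
    intro n B
    rw [List.foldl_cons, ih]
    simp only [cm]
    by_cases hx : B.count x = j
    · simp [hx]; omega
    · simp [hx]

theorem c_cm (j : ℕ) {f : α → List ℕ} (hf : Computable f) : Computable fun a => cm j [] (f a) := by
  have h : Computable fun a => ((f a).foldl (fun (s : ℕ × List ℕ) x =>
      ((bif decide (s.2.count x = j) then s.1 + 1 else s.1),
      x :: s.2.filter (fun z => decide (z ≤ x)))) (0, ([] : List ℕ))).1 := by
    refine Computable.fst.comp (RE.list_foldl (g := fun _ => (0, ([] : List ℕ)))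
      (h := fun (_ : α) (p : (ℕ × List ℕ) × ℕ) => ((bif decide (p.1.2.count p.2 = j) then p.1.1 + 1
        else p.1.1), p.2 :: p.1.2.filter (fun z => decide (z ≤ p.2)))) hf (Computable.const _) ?_)
    unfold Computable₂
    have h1 : Computable fun x : α × ((ℕ × List ℕ) × ℕ) =>
        x.2.1.2.filter (fun z => decide (z ≤ x.2.2)) := c_filter' (by fun_prop) (by fun_prop)
    have h2 : Computable fun x : α × ((ℕ × List ℕ) × ℕ) => x.2.1.2.count x.2.2 :=
      c_count (by fun_prop) (by fun_prop)
    have h3 : Computable fun x : α × ((ℕ × List ℕ) × ℕ) => decide (x.2.1.2.count x.2.2 = j) :=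
      c_deq h2 (by fun_prop)
    fun_prop
  refine h.of_eq fun a => ?_
  rw [cm_foldl]
  omega

theorem c_E3 {W : ℕ → ℕ → Bool} (hW : Computable fun q : ℕ × ℕ => W q.1 q.2) :
    Computable fun x : ℕ × ℕ => E3 W x.1 x.2 := by
  have h1 : ∀ j, Computable fun x : ℕ × ℕ => nm (yy W x.1) j x.2 := by
    intro j
    unfold nm
    exact c_cm j (c_wd (y := fun (x : ℕ × ℕ) t => yy W x.1 t)
      (c_yy hW (by fun_prop) (by fun_prop)) (by fun_prop))
  unfold E3
  exact cnot (cand (c_deq (c_mod (h1 0) (by fun_prop)) (by fun_prop))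
    (c_deq (c_mod (h1 1) (by fun_prop)) (by fun_prop)))

end comp

end Pool.Agent.Q205.HT
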