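import Pool.Agent.Q205.HT.Dec

/-! Hindman's theorem for sums of at most three elements: the colouring. -/

namespace Pool.Agent.Q205.HT

open Encodable Filter Pool.Agent.H645R2.HT Pool.Agent.Helper446 Pool.Agent.Helper446.RE
  Pool.Agent.Helper446.Oracle
open Pool.Agent.TH747.HT hiding dl el c_dl c_el col c_col no_solution
open Pool.Agent.TH747.HS

variable {X : Set ℕ}

/-- New enumeration of some `z ≤ x` between the stages `u` and `v`, for an enumeration which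
depends on `x`. -/
def gq (Q : ℕ → ℕ → ℕ → Bool) (_s x u v : ℕ) : Bool := exB (fun z => Q v x z && !(Q u x z)) (x + 1)

theorem gq_iff {Q : ℕ → ℕ → ℕ → Bool} {s x u v : ℕ} :
    gq Q s x u v = true ↔ ∃ z ≤ x, Q v x z = true ∧ Q u x z = false := by
  unfold gq
  rw [exB_iff]
  simp only [Bool.and_eq_true, Bool.not_eq_true', Nat.lt_succ_iff]

/-- The modulus colouring. -/
theorem modQ {Q : ℕ → ℕ → ℕ → Bool} (hQ : ∀ x, Mon fun s z => Q s x z) (hp : Ps X) (hf : Far X)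
    (he : Eq2 (C (gq Q)) X) : ∀ h ∈ X, ∀ z ≤ la h, ∀ s, Q s (la h) z = true →
      Q (mu h) (la h) z = true := by
  intro h hh z hz s hs
  by_contra hc
  rw [Bool.not_eq_true] at hc
  obtain ⟨N, hN⟩ := exists_stage (hQ (la h)) (la h)
  obtain ⟨l, hl, hll⟩ := hf (max (max N s) (mu h))
  have h1 : Sep h l := by unfold Pool.Agent.H645R2.HT.Sep; omega
  have h2 := he h hh l hl h1
  unfold C at h2
  rw [gs_add (hp h hh) (hp l hl) h1, mu_add (hp l hl) h1, la_add (hp h hh) h1] at h2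
  have e1 : gs (gq Q (mu l) (la h)) (L l) = false := by
    refine gs_false (L_sorted l).pairwise fun a ha b hb _ => ?_
    rw [← Bool.not_eq_true, gq_iff]
    rintro ⟨z', hz', h3, h4⟩
    have h5 := hN z' hz' b h3
    have h6 := hQ (la h) N a z' (by have := la_le ha; omega) h5
    dsimp only at h6
    rw [h4] at h6; cases h6
  have e2 : gq Q (mu l) (la h) (mu h) (la l) = true :=
    gq_iff.2 ⟨z, hz, hQ (la h) s _ z (by omega) hs, hc⟩
  have e3 : gs (gq Q (mu h) (la h)) (L h) = gs (gq Q (mu l) (la h)) (L h) := rfl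
  rw [e1, e2, e3] at h2
  revert h2
  generalize gs (gq Q (mu l) (la h)) (L h) = a
  revert a
  decide

/-- Some value after `x` and up to `s` of the approximations to the fact `c.unpair.1` is at most
`c.unpair.2`. -/
def Qy (s x c : ℕ) : Bool :=
  exB (fun t => decide (x < t) && decide (yy W0 c.unpair.1 t ≤ c.unpair.2)) (s + 1)

theorem Qy_iff {s x c : ℕ} :
    Qy s x c = true ↔ ∃ t, x < t ∧ t ≤ s ∧ yy W0 c.unpair.1 t ≤ c.unpair.2 := by
  unfold Qy
  rw [exB_iff]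
  simp only [Bool.and_eq_true, decide_eq_true_eq, Nat.lt_succ_iff]
  constructor
  · rintro ⟨t, h1, h2, h3⟩
    exact ⟨t, h2, h1, h3⟩
  · rintro ⟨t, h1, h2, h3⟩
    exact ⟨t, h2, h1, h3⟩

theorem mon_Qy (x : ℕ) : Mon fun s z => Qy s x z := by
  intro s t z hst h
  dsimp only at h ⊢
  rw [Qy_iff] at h ⊢
  obtain ⟨t', h1, h2, h3⟩ := h
  exact ⟨t', h1, h2.trans hst, h3⟩

theorem c_Qy {α : Type*} [Primcodable α] {f g h : α → ℕ} (hf : Computable f) (hg : Computable g)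
    (hh : Computable h) : Computable fun a => Qy (f a) (g a) (h a) := by
  unfold Qy
  refine computable_exB (q := fun (a : α) t => decide (g a < t) &&
    decide (yy W0 (h a).unpair.1 t ≤ (h a).unpair.2)) ?_ (by fun_prop)
  unfold Computable₂
  refine cand (c_dlt (by fun_prop) (by fun_prop)) ?_
  have h1 : Computable fun x : α × ℕ => yy W0 (h x.1).unpair.1 x.2 :=
    c_yy c_W0 (by fun_prop) (by fun_prop)
  have h2 : Computable fun x : α × ℕ => decide (yy W0 (h x.1).unpair.1 x.2 <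
      (h x.1).unpair.2 + 1) := c_dlt h1 (by fun_prop)
  refine h2.of_eq fun x => ?_
  rw [decide_eq_decide, Nat.lt_succ_iff]

theorem c_gq : Computable fun p : (ℕ × ℕ) × ℕ × ℕ => gq Qy p.1.1 p.1.2 p.2.1 p.2.2 := by
  unfold gq
  refine computable_exB (q := fun (p : (ℕ × ℕ) × ℕ × ℕ) z => Qy p.2.2 p.1.2 z &&
    !(Qy p.2.1 p.1.2 z)) ?_ (by fun_prop)
  unfold Computable₂
  exact cand (c_Qy (by fun_prop) (by fun_prop) (by fun_prop))
    (cnot (c_Qy (by fun_prop) (by fun_prop) (by fun_prop)))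

theorem near {V : Ultrafilter ℕ} (hV : FarU V) (hX : ∀ᶠ n in (V : Filter ℕ), n ∈ X) (hp : Ps X)
    (hf : Far X) (he : Eq2 (C (gq Qy)) X) : Near W0 V := by
  intro z b
  filter_upwards [hX, hV (Nat.pair z b)] with n hn hn'
  rintro ⟨t, ht, hyt⟩
  have h1 := modQ mon_Qy hp hf he n hn (Nat.pair z b) hn'.2.le t
    (Qy_iff.2 ⟨t, ht, le_rfl, by simpa using hyt⟩)
  obtain ⟨t', h2, h3, h4⟩ := Qy_iff.1 h1
  exact ⟨t', h2, h3, by simpa using h4⟩

/-- The colouring. -/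
def c3 (n : ℕ) : Fin 8 := pack3 (b0 n, C (gq Qy) n, col (E3 W0) n)

theorem c_c3 : Computable c3 := by
  have h1 : Computable pack3 := (Primrec.dom_finite pack3).to_comp
  exact h1.comp (c_b0.pair (Computable.pair (c_C c_gq) (c_col (c_E3 c_W0))))

/-- The ultrafilter of a solution. -/
theorem hyp3 (hinf : X.Infinite) (h0 : 0 ∉ X) (hc : Const3 c3 X) :
    ∃ V : Ultrafilter ℕ, FarU V ∧ (∀ N, ∃ x ∈ X, 3 ^ N ∣ x) ∧
      (∀ z, Sm V 2 (fun l => (E3 W0 z l = true ↔ Psi W0 z))) ∧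
      ∃ i, ∀ h ∈ X, Sm V 2 (fun l => col (E3 W0) (h + l) = i) := by
  have hp : Ps X := ps_of h0
  have hu := hc.map unpack3
  unfold c3 at hu
  simp only [unpack_pack3] at hu
  have hb0 : Const3 b0 X := hu.map fun q => q.1
  have hb1 : Const3 (C (gq Qy)) X := hu.map fun q => q.2.1
  have hb2 : Const3 (col (E3 W0)) X := hu.map fun q => q.2.2
  have hf := hb0.far hinf hp
  have hd := dvd_of_far hf
  obtain ⟨V, hV, hX⟩ := exists_farU h0 hd
  refine ⟨V, hV, hd, lim3 mon_W0 hV (near hV hX hp hf (hb1.eq2 hp)), ?_⟩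
  obtain ⟨i, hi⟩ := hb2
  refine ⟨i, fun h hh => ?_⟩
  refine Sm_mono ?_ (Sm_mem hV hX (k := 2) h)
  rintro l ⟨G, g1, g2, g3, rfl⟩
  have h4 : h ∉ G := fun h' => absurd (g3 h h') (lt_irrefl _)
  have e := Finset.sum_insert (f := fun x : ℕ => x) h4
  rw [← e]
  refine hi _ ?_ ⟨h, Finset.mem_insert_self _ _⟩ ?_
  · rw [Finset.coe_insert]
    exact Set.insert_subset hh g1
  · rw [Finset.card_insert_of_notMem h4, g2]

/-- Solutions for sums of at most three elements compute, for every `Σ⁰₄` relation, a function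
avoiding all single-valued sections. -/
theorem dnc3 (hinf : X.Infinite) (h0 : 0 ∉ X) (hc : Const3 c3 X)
    {R : ℕ → ℕ → ℕ → ℕ → ℕ → ℕ → Bool}
    (hR : Computable fun x : ℕ × ℕ × ℕ × ℕ × ℕ × ℕ =>
      R x.1 x.2.1 x.2.2.1 x.2.2.2.1 x.2.2.2.2.1 x.2.2.2.2.2) :
    ∃ f : ℕ → ℕ, REIn X (fun x : ℕ × ℕ => f x.1 = x.2) ∧
      ∀ q, ¬ ∀ m, Sig4 R q m ↔ m = f q := by
  obtain ⟨V, hV, hd, hlim, hcc⟩ := hyp3 hinf h0 hc
  obtain ⟨e, he⟩ := exists_index hR
  exact dnc_gen (k := 2) (by omega) hV hlim h0 hd hcc (REIn.mem Computable.id)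
    (REIn.not_mem Computable.id) e he

/-- Solutions for sums of at most three elements are not `Σ⁰₄`. -/
theorem no_sigma4 (hinf : X.Infinite) (h0 : 0 ∉ X) (hc : Const3 c3 X)
    {R : ℕ → ℕ → ℕ → ℕ → ℕ → Bool}
    (hR : Computable fun x : ℕ × ℕ × ℕ × ℕ × ℕ =>
      R x.1 x.2.1 x.2.2.1 x.2.2.2.1 x.2.2.2.2) :
    ¬ ∀ n, n ∈ X ↔ ∃ a, ∀ b, ∃ t, ∀ u, R n a b t u = true := by
  intro hXR
  obtain ⟨V, hV, hd, hlim, hcc⟩ := hyp3 hinf h0 hc
  have h1 : REPred fun w : ℕ => ∃ u, R w.unpair.1.unpair.1 w.unpair.1.unpair.2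
      w.unpair.2.unpair.1 w.unpair.2.unpair.2 u = false := by
    refine RE.exN (p := fun (w : ℕ) u => R w.unpair.1.unpair.1 w.unpair.1.unpair.2
      w.unpair.2.unpair.1 w.unpair.2.unpair.2 u = false) ?_
    refine RE.eq ?_ (by fun_prop)
    exact hR.comp (g := fun x : ℕ × ℕ => (x.1.unpair.1.unpair.1,
      x.1.unpair.1.unpair.2, x.1.unpair.2.unpair.1, x.1.unpair.2.unpair.2, x.2)) (by fun_prop)
  obtain ⟨e, he⟩ := univ_W0 h1
  refine no_solution (k := 2) (by omega) hV hlim h0 hd hcc e fun n => ?_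
  rw [hXR n]
  refine exists_congr fun a => ?_
  rw [Psi_W0]
  refine forall_congr' fun b => exists_congr fun c => ?_
  unfold ix
  simp only [Nat.unpair_pair]
  rw [← he]
  simp only [Nat.unpair_pair]
  push Not
  refine forall_congr' fun u => ?_
  simp

end Pool.Agent.Q205.HT
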