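import Pool.Agent.TH747.HS.ClusK
import Pool.Agent.TH747.HT.Pi3

/-! Members of clusters. The letters of a word are read from left to right; a letter is visible if
no smaller letter has been read after it, and the visible occurrences of one letter form a cluster.
`cm j B w` is the number of letters of `w` which are the `j`-th member (counted from `0`) of their
cluster, where `B` is the list of the visible letters before the word. -/

namespace Pool.Agent.Q205.HT

open Filter Pool.Agent.H645R2.HT Pool.Agent.TH747.HT Pool.Agent.TH747.HS

/-- Number of `j`-th members of clusters. -/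
def cm (j : ℕ) : List ℕ → List ℕ → ℕ
  | _, [] => 0
  | B, x :: w => (if B.count x = j then 1 else 0) + cm j (x :: B.filter (fun z => decide (z ≤ x))) w

/-- Visible letters after the word. -/
def vs : List ℕ → List ℕ → List ℕ
  | B, [] => B
  | B, x :: w => vs (x :: B.filter (fun z => decide (z ≤ x))) w

theorem cm_append (j : ℕ) (B u w : List ℕ) : cm j B (u ++ w) = cm j B u + cm j (vs B u) w := by
  induction u generalizing B with
  | nil => simp [cm, vs]
  | cons x u ih =>
    rw [List.cons_append]
    simp only [cm, vs]
    rw [ih]
    omega

theorem vs_append (B u w : List ℕ) : vs B (u ++ w) = vs (vs B u) w := by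
  induction u generalizing B with
  | nil => simp [vs]
  | cons x u ih =>
    rw [List.cons_append]
    simp only [vs]
    rw [ih]

/-- Small letters below do not matter. -/
theorem cm_small (j : ℕ) (w S T : List ℕ) (hT : ∀ x ∈ T, ∀ y ∈ w, x < y) :
    cm j (S ++ T) w = cm j S w := by
  induction w generalizing S with
  | nil => rfl
  | cons y w ih =>
    simp only [cm]
    have h1 : (S ++ T).count y = S.count y := by
      rw [List.count_append, List.count_eq_zero_of_not_mem (fun h => lt_irrefl _ (hT y h y (by simp))),
        Nat.add_zero]
    have h2 : (S ++ T).filter (fun z => decide (z ≤ y)) =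
        S.filter (fun z => decide (z ≤ y)) ++ T := by
      rw [List.filter_append]
      congr 1
      rw [List.filter_eq_self]
      intro x hx
      rw [decide_eq_true_eq]
      exact (hT x hx y (by simp)).le
    rw [h1, h2, ← List.cons_append, ih _ fun x hx z hz => hT x hx z (List.mem_cons_of_mem _ hz)]

theorem filter_ge_nil {S : List ℕ} {b : ℕ} (hS : ∀ x ∈ S, b < x) :
    S.filter (fun z => decide (z ≤ b)) = [] := by
  rw [List.filter_eq_nil_iff]
  intro x hx
  have := hS x hx
  simp only [decide_eq_true_eq]
  omega

theorem filter_rep {b y k : ℕ} (h : b ≤ y) :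
    (List.replicate k b).filter (fun z => decide (z ≤ y)) = List.replicate k b := by
  rw [List.filter_eq_self]
  intro x hx
  rw [List.eq_of_mem_replicate hx, decide_eq_true_eq]
  exact h

/-- The smallest letter `b`: the members of its cluster. -/
theorem cm_min (j : ℕ) (hj : j ≤ 1) (b : ℕ) (w : List ℕ) : ∀ (S : List ℕ) (k : ℕ),
    (∀ x ∈ S, b < x) → (∀ y ∈ w, b ≤ y) →
    cm j (S ++ List.replicate k b) w =
      cm j (S ++ List.replicate 2 b) w + (if k ≤ j ∧ j < k + w.count b then 1 else 0) := by
  induction w with
  | nil =>
    intro S k hS hw
    simp [cm]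
  | cons y w ih =>
    intro S k hS hw
    have hw' : ∀ z ∈ w, b ≤ z := fun z hz => hw z (List.mem_cons_of_mem _ hz)
    rcases Nat.eq_or_lt_of_le (hw y (by simp)) with h | h
    · subst h
      have hc : S.count b = 0 := List.count_eq_zero_of_not_mem fun h => lt_irrefl _ (hS b h)
      have hstep : ∀ k, cm j (S ++ List.replicate k b) (b :: w) =
          (if k = j then 1 else 0) + cm j (List.replicate (k + 1) b) w := by
        intro k
        simp only [cm]
        rw [List.count_append, hc, List.count_replicate_self, Nat.zero_add, List.filter_append,
          filter_ge_nil hS, filter_rep le_rfl, List.nil_append, List.replicate_succ]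
      rw [hstep, hstep]
      have h1 := ih [] (k + 1) (by simp) hw'
      have h2 := ih [] (2 + 1) (by simp) hw'
      rw [List.nil_append, List.nil_append] at h1 h2
      rw [h1, h2, List.count_cons_self]
      by_cases e1 : k = j
      · subst e1
        rw [if_pos rfl, if_neg (by omega), if_neg (by omega), if_neg (by omega),
          if_pos ⟨le_rfl, by omega⟩]
        omega
      · rw [if_neg e1, if_neg (show ¬ (2 = j) by omega),
          if_neg (show ¬ (2 + 1 ≤ j ∧ j < 2 + 1 + w.count b) by omega)]
        by_cases e2 : k + 1 ≤ j ∧ j < k + 1 + w.count b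
        · rw [if_pos e2, if_pos (by omega)]
          omega
        · rw [if_neg e2, if_neg (by omega)]
          omega
    · have hyb : y ≠ b := by omega
      have hstep : ∀ k, cm j (S ++ List.replicate k b) (y :: w) =
          (if S.count y = j then 1 else 0) +
            cm j ((y :: S.filter (fun z => decide (z ≤ y))) ++ List.replicate k b) w := by
        intro k
        simp only [cm]
        have h1 : (List.replicate k b).count y = 0 :=
          List.count_eq_zero_of_not_mem fun hc => hyb (List.eq_of_mem_replicate hc)
        rw [List.count_append, h1, Nat.add_zero, List.filter_append, filter_rep h.le,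
          List.cons_append]
      rw [hstep, hstep, ih (y :: S.filter (fun z => decide (z ≤ y))) k ?_ hw',
        List.count_cons_of_ne hyb]
      · omega
      · intro x hx
        rcases List.mem_cons.1 hx with rfl | hx
        · exact h
        · exact hS x (List.mem_of_mem_filter hx)

/-- The visible letters: above the smallest letter `b` there are only larger letters. -/
theorem vs_min (b : ℕ) (w : List ℕ) : ∀ (S : List ℕ) (k : ℕ),
    (∀ x ∈ S, b < x) → (∀ y ∈ w, b ≤ y) →
    ∃ S' : List ℕ, (∀ x ∈ S', b < x) ∧
      vs (S ++ List.replicate k b) w = S' ++ List.replicate (k + w.count b) b := by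
  induction w with
  | nil =>
    intro S k hS _
    exact ⟨S, hS, by simp [vs]⟩
  | cons y w ih =>
    intro S k hS hw
    have hw' : ∀ z ∈ w, b ≤ z := fun z hz => hw z (List.mem_cons_of_mem _ hz)
    rcases Nat.eq_or_lt_of_le (hw y (by simp)) with h | h
    · subst h
      obtain ⟨S', h1, h2⟩ := ih [] (k + 1) (by simp) hw'
      refine ⟨S', h1, ?_⟩
      simp only [vs]
      rw [List.filter_append, filter_ge_nil hS, filter_rep le_rfl, List.nil_append,
        ← List.replicate_succ]
      rw [List.nil_append] at h2
      rw [h2, List.count_cons_self]
      congr 2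
      omega
    · obtain ⟨S', h1, h2⟩ := ih (y :: S.filter (fun z => decide (z ≤ y))) k (by
        intro x hx
        rcases List.mem_cons.1 hx with rfl | hx
        · exact h
        · exact hS x (List.mem_of_mem_filter hx)) hw'
      refine ⟨S', h1, ?_⟩
      simp only [vs]
      rw [List.filter_append, filter_rep h.le, ← List.cons_append, h2,
        List.count_cons_of_ne (show y ≠ b by omega)]

/-- Joining two words which contain their smallest letter `b` along `b`. -/
theorem cm_join {j : ℕ} (hj : j ≤ 1) {u w : List ℕ} {b : ℕ} (hu : ∀ y ∈ u, b ≤ y)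
    (hw : ∀ y ∈ w, b ≤ y) (hbu : b ∈ u) :
    cm j [] (u ++ (b :: w)) =
      cm j (List.replicate 2 b) u + cm j (List.replicate 2 b) w + 1 := by
  have hcu : 0 < u.count b := List.count_pos_iff.2 hbu
  obtain ⟨S', h1, h2⟩ := vs_min b u [] 0 (by simp) hu
  have h3 := cm_min j hj b u [] 0 (by simp) hu
  simp only [List.replicate_zero, List.append_nil, List.nil_append, Nat.zero_add] at h2 h3
  rw [cm_append, h2, h3]
  simp only [cm]
  have hc : S'.count b = 0 := List.count_eq_zero_of_not_mem fun h => lt_irrefl _ (h1 b h)
  rw [List.count_append, hc, List.count_replicate_self, Nat.zero_add, List.filter_append,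
    filter_ge_nil h1, filter_rep le_rfl, List.nil_append, ← List.replicate_succ]
  have h4 := cm_min j hj b w [] (u.count b + 1) (by simp) hw
  simp only [List.nil_append] at h4
  rw [h4, if_neg (show ¬ (u.count b + 1 ≤ j ∧ j < u.count b + 1 + w.count b) by omega)]
  by_cases e : u.count b = j
  · rw [if_pos e, if_neg (by omega)]
    omega
  · rw [if_neg e, if_pos ⟨Nat.zero_le _, by omega⟩]
    omega

/-- Joining two words, the second one consisting of large letters. -/
theorem cm_far (j : ℕ) {u w : List ℕ} {g : ℕ} (hw : ∀ y ∈ w, g < y) :
    cm j [] (u ++ (g :: w)) =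
      cm j [] u + (if (vs [] u).count g = j then 1 else 0) + cm j [] w := by
  rw [cm_append]
  simp only [cm]
  have h1 := cm_small j w [] (g :: (vs [] u).filter (fun z => decide (z ≤ g))) (by
    intro x hx y hy
    have := hw y hy
    simp only [List.mem_cons, List.mem_filter, decide_eq_true_eq] at hx
    omega)
  rw [List.nil_append] at h1
  rw [h1]
  omega

end Pool.Agent.Q205.HT
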